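import Pool.Agent.P.MP_0b0f5a_al.Fo.Fin

/-!
The class of the Følner function of `G ω` for every sequence `ω`.
-/

namespace Pool.Agent.Results.MP_0b0f5a_al.AllOmega

open Pool.Agent.P.MP_0b0f5a_al

theorem result (ω : ℕ → Fin 3) :
    (∀ K, (∀ i ≥ K, ω i = ω K) → (K = 0 ∨ ω (K - 1) ≠ ω K) →
      Equivalent (folner ω) fun n => n ^ 2 ^ K) ∧
    ((∀ K, ∃ i ≥ K, ω i ≠ ω K) → Equivalent (folner ω) fun n => 2 ^ 2 ^ depth ω n) :=
  ⟨fun _ h h' => Fo.main_const h h', Fo.main_gen⟩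

end Pool.Agent.Results.MP_0b0f5a_al.AllOmega
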